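import Pool.Agent.helper88.RL.SpecL

/-!
# Row Z6 (MP_16912e_nt, real fields, stage 2, block L): vectors with resultant zero
-/

set_option autoImplicit false

namespace Pool.Agent.RL

open Finset Pool.Agent.helper3.FT Pool.Agent.T6 Pool.Agent.RF

/-- two common zeros of the two cubic forms -/
theorem Z6_field {L : Type*} [Field L] (a z' w X lam mu : L) (k2 : (2 : L) ≠ 0) (k5 : (5 : L) ≠ 0)
    (hlm : lam ≠ mu) (h1 : 5 * a * lam ^ 3 + 2 * w * lam - z' = 0)
    (h2 : 5 * a * mu ^ 3 + 2 * w * mu - z' = 0) (h3 : w * lam ^ 3 + 2 * z' * lam ^ 2 - X = 0)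
    (h4 : w * mu ^ 3 + 2 * z' * mu ^ 2 - X = 0) : 5 * a * z' ^ 2 = -w ^ 3 := by
  have hd : lam - mu ≠ 0 := sub_ne_zero.2 hlm
  have g1 : 5 * a * (lam ^ 2 + lam * mu + mu ^ 2) + 2 * w = 0 := by
    have e : (lam - mu) * (5 * a * (lam ^ 2 + lam * mu + mu ^ 2) + 2 * w) = 0 := by
      linear_combination h1 - h2
    exact (mul_eq_zero.1 e).resolve_left hd
  have g2 : w * (lam ^ 2 + lam * mu + mu ^ 2) + 2 * z' * (lam + mu) = 0 := by
    have e : (lam - mu) * (w * (lam ^ 2 + lam * mu + mu ^ 2) + 2 * z' * (lam + mu)) = 0 := by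
      linear_combination h3 - h4
    exact (mul_eq_zero.1 e).resolve_left hd
  have hz : z' = -(5 * a * (lam + mu) * (lam * mu)) := by
    linear_combination -h1 + lam * g1
  by_cases ha : a = 0
  · have hw : w = 0 := by
      have e : 2 * w = 0 := by rw [ha] at g1; linear_combination g1
      exact (mul_eq_zero.1 e).resolve_left k2
    rw [ha, hw]; ring
  · have e : 5 * a * ((lam + mu) ^ 2 + lam * mu) ^ 2 = 0 := by
      have e1 : 2 * w = -(5 * a * (lam ^ 2 + lam * mu + mu ^ 2)) := by linear_combination g1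
      rw [hz] at g2
      linear_combination -2 * g2 + (lam ^ 2 + lam * mu + mu ^ 2) * e1
    have e2 : (lam + mu) ^ 2 + lam * mu = 0 := by
      have e3 := (mul_eq_zero.1 e).resolve_left (mul_ne_zero k5 ha)
      exact pow_eq_zero_iff (two_ne_zero) |>.1 e3
    have hp : lam * mu = -(lam + mu) ^ 2 := by linear_combination e2
    have hw : w = -(5 * a * (lam + mu) ^ 2) := by
      have e4 : 2 * (w + 5 * a * (lam + mu) ^ 2) = 0 := by
        linear_combination g1 + 5 * a * hp
      have e5 := (mul_eq_zero.1 e4).resolve_left k2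
      linear_combination e5
    rw [hp] at hz
    rw [hz, hw]; ring

/-- `F2 (star k) (star n)` is a unit times the conjugate of `F1 n k` -/
theorem Z6_id {R : Type*} [CommRing R] (f f' a' z z' N' k' : R) (hf : f * f' = -1)
    (h : 5 * a' * N' ^ 3 + 2 * f * z' * N' * k' ^ 2 - z * k' ^ 3 = 0) :
    f' * z * k' ^ 3 + 2 * z' * k' ^ 2 * N' - 5 * f' * a' * N' ^ 3 = 0 := by
  linear_combination -f' * h + 2 * z' * k' ^ 2 * N' * hf

theorem Z6_id2 {R : Type*} [CommRing R] (f f' a' z z' N k : R) (hf : f * f' = -1)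
    (h : f' * z * N ^ 3 + 2 * z' * N ^ 2 * k - 5 * f' * a' * k ^ 3 = 0) :
    5 * a' * k ^ 3 + 2 * f * z' * k * N ^ 2 - z * N ^ 3 = 0 := by
  linear_combination f * h + (5 * a' * k ^ 3 - z * N ^ 3) * hf

theorem Z6_ph : ph * star ph = -1 := by
  decide

theorem Z6_smul {R : Type*} [CommRing R] (a f' z z' m K K' : R) :
    5 * a * (m * K) ^ 3 + 2 * f' * z * (m * K) * (m * K') ^ 2 - z' * (m * K') ^ 3 =
      m ^ 3 * (5 * a * K ^ 3 + 2 * f' * z * K * K' ^ 2 - z' * K' ^ 3) := by ring

theorem Z6_mulK {R : Type*} [CommRing R] (a f' z z' N k K K' : R) (h : K * k = N * K')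
    (h1 : 5 * a * N ^ 3 + 2 * f' * z * N * k ^ 2 - z' * k ^ 3 = 0) :
    k ^ 3 * (5 * a * K ^ 3 + 2 * f' * z * K * K' ^ 2 - z' * K' ^ 3) = 0 := by
  have e : k ^ 3 * (5 * a * K ^ 3 + 2 * f' * z * K * K' ^ 2 - z' * K' ^ 3) =
      5 * a * (K * k) ^ 3 + 2 * f' * z * (K * k) * (K' * k) ^ 2 - z' * (K' * k) ^ 3 := by ring
  rw [e, h]
  linear_combination K' ^ 3 * h1

/-- the second component is not zero -/
theorem Z6_z (h2 : WEU_stmt) (v : V4) (hv : v ≠ 0) (hR : RV v = 0) : vz4 v ≠ 0 := by
  intro hz
  have := h2.1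
  have ha : va4 v = 0 := by
    unfold RV R0 at hR
    rw [hz] at hR
    have e : (va4 v).norm = 0 := by
      have e1 : -(3125 * (va4 v).norm ^ 3) = 0 := by
        simp [trO] at hR
        simpa using hR
      have e2 : (va4 v).norm ^ 3 = 0 := by omega
      exact pow_eq_zero_iff (three_ne_zero) |>.1 e2
    have e3 : (va4 v) * star (va4 v) = 0 := by
      rw [← QuadraticAlgebra.algebraMap_norm_eq_mul_star, e, map_zero]
    rcases mul_eq_zero.1 e3 with h | h
    · exact h
    · simpa using h
  apply hv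
  have a1 : v.1 = 0 := congrArg QuadraticAlgebra.re ha
  have a2 : v.2.1 = 0 := congrArg QuadraticAlgebra.im ha
  have a3 : v.2.2.1 = 0 := congrArg QuadraticAlgebra.re hz
  have a4 : v.2.2.2 = 0 := congrArg QuadraticAlgebra.im hz
  exact Prod.ext a1 (Prod.ext a2 (Prod.ext a3 a4))

/-- from a root `K` with `K ≠ 0` to a root with coprime coordinates -/
theorem Z6_prim (h2 : WEU_stmt) (v : V4) (K : OO) (hK : K ≠ 0) (h : FF K (va4 v) (vz4 v) = 0) :
    ∃ n k : ℤ, IsCoprime n k ∧ InW n k v := by
  have := h2.1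
  have hne : K.re ≠ 0 ∨ K.im ≠ 0 := by
    by_contra hc
    push Not at hc
    exact hK (QuadraticAlgebra.ext hc.1 hc.2)
  have hg : (Int.gcd K.re K.im : ℤ) ≠ 0 := by
    intro h0
    have h1 : Int.gcd K.re K.im = 0 := by exact_mod_cast h0
    rw [Int.gcd_eq_zero_iff] at h1
    rcases hne with h3 | h3
    · exact h3 h1.1
    · exact h3 h1.2
  obtain ⟨m, hm⟩ : ∃ m : ℤ, m = (Int.gcd K.re K.im : ℤ) := ⟨_, rfl⟩
  have hm0 : m ≠ 0 := by rw [hm]; exact hg
  obtain ⟨n, hn⟩ : m ∣ K.re := by rw [hm]; exact Int.gcd_dvd_left ..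
  obtain ⟨k, hk⟩ : m ∣ K.im := by rw [hm]; exact Int.gcd_dvd_right ..
  have hcop : IsCoprime n k := by
    rw [Int.isCoprime_iff_gcd_eq_one]
    have e : Int.gcd K.re K.im = m.natAbs * Int.gcd n k := by
      rw [hn, hk, Int.gcd_mul_left]
    have e2 : m.natAbs = Int.gcd K.re K.im := by rw [hm]; simp
    rw [← e2] at e
    have e3 : 0 < m.natAbs := Int.natAbs_pos.2 hm0
    nlinarith
  refine ⟨n, k, hcop, ?_⟩
  unfold InW FF
  have hK2 : K = (m : OO) * (⟨n, k⟩ : OO) := by
    ext
    · simp [hn]
    · simp [hk]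
  have hK3 : star K = (m : OO) * star (⟨n, k⟩ : OO) := by
    rw [hK2, star_mul, star_intCast, mul_comm]
  unfold FF at h
  rw [hK3] at h
  rw [hK2] at h
  rw [Z6_smul] at h
  have hm1 : (m : OO) ^ 3 ≠ 0 := pow_ne_zero _ (by exact_mod_cast hm0)
  exact (mul_eq_zero.1 h).resolve_left hm1

theorem Z6 (h1 : WRT_stmt) (h2 : WEU_stmt) : Z6_stmt := by
  intro v hv hR
  have hzne := Z6_z h2 v hv hR
  have := h2.1
  rcases h1 (va4 v) (vz4 v) (Or.inr hzne) hR with ⟨N, k, hN, hk, hE1, hE2⟩ | h
  swap
  · exact Or.inr ⟨hzne, h⟩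
  have hk' : star k ≠ 0 := by simpa using hk
  have hN' : star N ≠ 0 := by simpa using hN
  -- the second common zero
  have hE1s : 5 * star (va4 v) * star N ^ 3 + 2 * ph * star (vz4 v) * star N * star k ^ 2 -
      vz4 v * star k ^ 3 = 0 := by
    have := congrArg star hE1
    simpa [mul_comm, mul_left_comm, mul_assoc] using this
  have hE2s : 5 * star (va4 v) * k ^ 3 + 2 * ph * star (vz4 v) * k * N ^ 2 - vz4 v * N ^ 3 = 0 :=
    Z6_id2 ph (star ph) (star (va4 v)) (vz4 v) (star (vz4 v)) N k Z6_ph hE2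
  have hE3 : star ph * vz4 v * star k ^ 3 + 2 * star (vz4 v) * star k ^ 2 * star N -
      5 * star ph * star (va4 v) * star N ^ 3 = 0 :=
    Z6_id ph (star ph) (star (va4 v)) (vz4 v) (star (vz4 v)) (star N) (star k) Z6_ph hE1s
  have hE4 : 5 * va4 v * star k ^ 3 + 2 * star ph * vz4 v * star k * star N ^ 2 -
      star (vz4 v) * star N ^ 3 = 0 := by
    have := congrArg star hE2s
    simpa [mul_comm, mul_left_comm, mul_assoc] using this
  by_cases hc : N * star N = k * star k
  · left
    by_cases hK : N + star k = 0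
    · have hK0 : r5 * star k ≠ 0 := mul_ne_zero (by decide) hk'
      apply Z6_prim h2 v (r5 * star k) hK0
      have hr5 : star r5 = -r5 := by ext <;> simp [r5]
      have e : r5 * star k * k = N * star (r5 * star k) := by
        have hN1 : N = -star k := by linear_combination hK
        have e1 : star (r5 * star k) = -(r5 * k) := by
          rw [star_mul, hr5, star_star]; ring
        rw [e1, hN1]; ring
      have := Z6_mulK (va4 v) (star ph) (vz4 v) (star (vz4 v)) N k (r5 * star k)
        (star (r5 * star k)) e hE1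
      exact (mul_eq_zero.1 this).resolve_left (pow_ne_zero _ hk)
    · apply Z6_prim h2 v (N + star k) hK
      have e : (N + star k) * k = N * star (N + star k) := by
        rw [star_add, star_star]
        linear_combination -hc
      have := Z6_mulK (va4 v) (star ph) (vz4 v) (star (vz4 v)) N k (N + star k)
        (star (N + star k)) e hE1
      exact (mul_eq_zero.1 this).resolve_left (pow_ne_zero _ hk)
  · right
    refine ⟨hzne, ?_⟩
    have hinj : Function.Injective (algebraMap OO (FractionRing OO)) :=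
      IsFractionRing.injective OO (FractionRing OO)
    have hne : ∀ x : OO, x ≠ 0 → algebraMap OO (FractionRing OO) x ≠ 0 := by
      intro x hx h0
      exact hx (hinj (by rw [h0, map_zero]))
    have m1 := congrArg (algebraMap OO (FractionRing OO)) hE1
    have m2 := congrArg (algebraMap OO (FractionRing OO)) hE2
    have m3 := congrArg (algebraMap OO (FractionRing OO)) hE3
    have m4 := congrArg (algebraMap OO (FractionRing OO)) hE4
    simp only [map_add, map_sub, map_mul, map_pow, map_zero, map_ofNat] at m1 m2 m3 m4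
    have n1 := hne k hk
    have n2 := hne (star N) hN'
    have n3 := hne 2 (by decide)
    have n5 := hne 5 (by decide)
    rw [map_ofNat] at n3 n5
    have key := Z6_field (algebraMap OO (FractionRing OO) (va4 v))
      (algebraMap OO (FractionRing OO) (star (vz4 v)))
      (algebraMap OO (FractionRing OO) (star ph) * algebraMap OO (FractionRing OO) (vz4 v))
      (5 * algebraMap OO (FractionRing OO) (star ph) * algebraMap OO (FractionRing OO) (star (va4 v)))
      (algebraMap OO (FractionRing OO) N / algebraMap OO (FractionRing OO) k)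
      (algebraMap OO (FractionRing OO) (star k) / algebraMap OO (FractionRing OO) (star N))
      n3 n5 ?_ ?_ ?_ ?_ ?_
    · apply hinj
      simp only [map_neg, map_mul, map_pow, map_ofNat]
      rw [key]; ring
    · intro h
      rw [div_eq_div_iff n1 n2, ← map_mul, ← map_mul] at h
      apply hc
      have := hinj h
      linear_combination this
    · have e := m1
      field_simp
      linear_combination e
    · have e := m4
      field_simp
      linear_combination e
    · have e := m2
      field_simp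
      linear_combination e
    · have e := m3
      field_simp
      linear_combination e

end Pool.Agent.RL
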